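import Pool.Agent.W827.BW.Stm

set_option autoImplicit false

namespace Pool.Agent.W800.BW

open Pool.Agent.W827.BW Set Filter Topology

theorem uu_succ (n : ℕ) : uu (n + 1) = 3 * uu n + 1 := rfl

theorem uu_mono : Monotone uu := monotone_nat_of_le_succ fun n => by rw [uu_succ]; omega

theorem mm {a b : ℕ} (h : a ≤ b) : a * (a + 1) ≤ b * (b + 1) :=
  Nat.mul_le_mul h (Nat.succ_le_succ h)

theorem lev_mono : Monotone lev := fun a b h => Nat.log_mono_right (by omega)

section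

variable (h1 : S_LEV) (h2 : S_UREC)

include h1

theorem lev_spec (t : ℕ) : uu (lev t) ≤ t ∧ t ≤ 3 * uu (lev t) := by
  obtain ⟨h3, h4⟩ := (h1 t (lev t)).1 rfl
  rw [uu_succ] at h4
  exact ⟨h3, by omega⟩

theorem lev_uu (n : ℕ) : lev (uu n) = n := (h1 _ _).2 ⟨le_rfl, by rw [uu_succ]; omega⟩

theorem lev_zero : lev 0 = 0 := lev_uu h1 0

theorem rr_zero : rr 0 = 0 := by
  unfold rr
  rw [Nat.zero_sub]
  exact Nat.zero_min _

theorem rr_uu (n : ℕ) : rr (uu n) = 0 := by
  unfold rr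
  rw [lev_uu h1, Nat.sub_self]
  exact Nat.zero_min _

theorem rr_le (t : ℕ) : rr t ≤ uu (lev t) := by
  obtain ⟨h3, h4⟩ := lev_spec h1 t
  unfold rr
  omega

include h2

theorem UU_eq (t : ℕ) : UU t = lev t + UU (rr t) := by
  rcases Nat.eq_zero_or_pos t with rfl | h
  · rw [lev_zero h1, rr_zero h1, h2.1]
  · exact (h2.2 t h).2

theorem Ubound (t : ℕ) : UU (rr t) ≤ lev t ^ 2 ∧ UU t ≤ lev t * (lev t + 1) := by
  induction t using Nat.strong_induction_on with
  | _ t ih =>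
    have h3 : UU (rr t) ≤ lev t ^ 2 := by
      rcases Nat.eq_zero_or_pos t with rfl | h
      · rw [rr_zero h1, h2.1]; exact Nat.zero_le _
      · have h4 := rr_le h1 t
        rcases Nat.lt_or_ge (rr t) (uu (lev t)) with h5 | h5
        · have h6 : lev (rr t) < lev t := by
            by_contra h7
            have h8 := uu_mono (Nat.le_of_not_lt h7)
            have h9 := (lev_spec h1 (rr t)).1
            omega
          have h7 := (ih (rr t) (h2.2 t h).1).2
          nlinarith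
        · have h6 : rr t = uu (lev t) := le_antisymm h4 h5
          rw [h6, UU_eq h1 h2, lev_uu h1, rr_uu h1, h2.1, add_zero]
          have h7 : 1 ≤ lev t ∨ lev t = 0 := by omega
          rcases h7 with h7 | h7
          · nlinarith
          · rw [h7]; norm_num
    refine ⟨h3, ?_⟩
    rw [UU_eq h1 h2]
    nlinarith

omit h2 in
theorem rr_lip (s t : ℕ) (hst : s ≤ t) (hl : lev s = lev t) :
    (rr t ≤ rr s + (t - s)) ∧ (rr s ≤ rr t + (t - s)) := by
  have h3 := lev_spec h1 s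
  have h4 := lev_spec h1 t
  unfold rr
  rw [hl] at h3 ⊢
  omega

omit h1 h2 in
theorem pow_bd {a b : ℕ} (h : a ≤ b) : ((lev a : ℤ) + 2) ^ 2 ≤ ((lev b : ℤ) + 2) ^ 2 := by
  have h7 : (lev a : ℤ) ≤ lev b := by exact_mod_cast lev_mono h
  have h8 : (0 : ℤ) ≤ lev a := Int.natCast_nonneg _
  exact pow_le_pow_left₀ (by linarith) (by linarith) 2

omit h2 in
theorem adj_r (s t : ℕ) (hst : s < t) (heq : lev s + 1 = lev t) :
    rr t ≤ t - s ∧ rr s ≤ t - s := by
  have ht := lev_spec h1 t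
  have hs := lev_spec h1 s
  have hu : uu (lev t) = 3 * uu (lev s) + 1 := by rw [← heq]; rfl
  unfold rr
  constructor
  · refine (min_le_left _ _).trans ?_
    omega
  · refine (min_le_right _ _).trans ?_
    omega

theorem adj (s t : ℕ) (hst : s < t) (heq : lev s + 1 = lev t) :
    (UU (rr t) : ℤ) ≤ lev (t - s) * (lev (t - s) + 1) ∧
    (UU (rr s) : ℤ) ≤ lev (t - s) * (lev (t - s) + 1) := by
  obtain ⟨h3, h4⟩ := adj_r h1 s t hst heq
  have h7 := (Ubound h1 h2 (rr t)).2.trans (mm (lev_mono h3))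
  have h8 := (Ubound h1 h2 (rr s)).2.trans (mm (lev_mono h4))
  constructor
  · exact_mod_cast h7
  · exact_mod_cast h8

omit h2 in
theorem far_r (s t : ℕ) (hlt : lev s + 1 < lev t) : lev t ≤ lev (t - s) + 1 := by
  have ht := lev_spec h1 t
  have hs := ((h1 s (lev s)).1 rfl).2
  obtain ⟨n, hn⟩ : ∃ n, lev t = n + 1 := ⟨lev t - 1, by omega⟩
  have h6 : uu (lev t) = 3 * uu n + 1 := by rw [hn]; rfl
  have h7 : uu (lev s + 1) ≤ uu n := uu_mono (by omega)
  have h8 := lev_mono (show uu n ≤ t - s by omega)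
  rw [lev_uu h1] at h8
  omega

theorem far (s t : ℕ) (hlt : lev s + 1 < lev t) :
    (0 ≤ (UU (rr t) : ℤ) ∧ 0 ≤ (UU (rr s) : ℤ) ∧ 0 ≤ (lev s : ℤ) ∧ (lev s : ℤ) ≤ lev t ∧
    (lev t : ℤ) ≤ lev (t - s) + 1 ∧
    (UU (rr t) : ℤ) ≤ (lev (t - s) + 1) ^ 2 ∧ (UU (rr s) : ℤ) ≤ (lev (t - s) + 1) ^ 2) := by
  have h3 := far_r h1 s t hlt
  have h6 := (Ubound h1 h2 t).1.trans (Nat.pow_le_pow_left h3 2)
  have h7 := (Ubound h1 h2 s).1.trans
    (Nat.pow_le_pow_left (show lev s ≤ lev (t - s) + 1 by omega) 2)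
  refine ⟨Int.natCast_nonneg _, Int.natCast_nonneg _, Int.natCast_nonneg _, ?_, ?_, ?_, ?_⟩
  · exact_mod_cast (by omega : lev s ≤ lev t)
  · exact_mod_cast h3
  · exact_mod_cast h6
  · exact_mod_cast h7

theorem same (s t : ℕ) (hst : s ≤ t) (heq : lev s = lev t)
    (ih : ∀ a b : ℕ, a ≤ b → b ≤ max (rr s) (rr t) →
      |(UU b : ℤ) - UU a| ≤ ((lev (b - a) : ℤ) + 2) ^ 2) :
    |(UU (rr t) : ℤ) - UU (rr s)| ≤ ((lev (t - s) : ℤ) + 2) ^ 2 := by
  obtain ⟨h3, h4⟩ := rr_lip h1 s t hst heq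
  rcases Nat.le_total (rr s) (rr t) with h5 | h5
  · exact (ih (rr s) (rr t) h5 (le_max_right _ _)).trans (pow_bd (by omega))
  · rw [abs_sub_comm]
    exact (ih (rr t) (rr s) h5 (le_max_left _ _)).trans (pow_bd (by omega))

/-- the oscillation of `UU` -/
theorem oscU (t : ℕ) : ∀ s : ℕ, s ≤ t →
    |(UU t : ℤ) - UU s| ≤ ((lev (t - s) : ℤ) + 2) ^ 2 := by
  induction t using Nat.strong_induction_on with
  | _ t ih =>
    intro s hst
    rcases Nat.eq_or_lt_of_le hst with rfl | hlt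
    · rw [sub_self, abs_zero]; positivity
    have hls : lev s ≤ lev t := lev_mono hst
    have hUt : (UU t : ℤ) = lev t + UU (rr t) := by exact_mod_cast UU_eq h1 h2 t
    have hUs : (UU s : ℤ) = lev s + UU (rr s) := by exact_mod_cast UU_eq h1 h2 s
    rw [hUt, hUs]
    rcases Nat.eq_or_lt_of_le hls with heq | hlt'
    · -- same level
      have hrt : rr t < t := (h2.2 t (by omega)).1
      have hrs : rr s < t := by
        rcases Nat.eq_zero_or_pos s with rfl | h
        · rw [rr_zero h1]; exact hlt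
        · exact ((h2.2 s h).1).trans hlt
      rw [heq, add_sub_add_left_eq_sub]
      exact same h1 h2 s t hst heq fun a b hab hb => ih b (lt_of_le_of_lt hb (max_lt hrs hrt)) a hab
    · rcases Nat.eq_or_lt_of_le (Nat.succ_le_of_lt hlt') with heq | hlt''
      · obtain ⟨h3, h4⟩ := adj h1 h2 s t hlt heq
        have h11 : (lev t : ℤ) = lev s + 1 := by exact_mod_cast heq.symm
        have h12 : (0 : ℤ) ≤ lev (t - s) := Int.natCast_nonneg _
        have h13 : (0 : ℤ) ≤ UU (rr t) := Int.natCast_nonneg _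
        have h14 : (0 : ℤ) ≤ UU (rr s) := Int.natCast_nonneg _
        have h17 : ((lev (t - s) : ℤ) + 2) ^ 2 =
          lev (t - s) * (lev (t - s) + 1) + 3 * lev (t - s) + 4 := by ring
        rw [abs_le, h17]
        constructor <;> linarith
      · obtain ⟨g1, g2, g3, g4, g5, g6, g7⟩ := far h1 h2 s t hlt''
        have h17 : ((lev (t - s) : ℤ) + 2) ^ 2 = (lev (t - s) + 1) ^ 2 + 2 * lev (t - s) + 3 := by
          ring
        rw [abs_le, h17]
        constructor <;> linarith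

/-- the oscillation of `ww` on the naturals -/
theorem oscW (s t : ℕ) (hst : s ≤ t) :
    |(-(lev t : ℤ) + UU (rr t)) - (-(lev s : ℤ) + UU (rr s))| ≤ ((lev (t - s) : ℤ) + 2) ^ 2 := by
  rcases Nat.eq_or_lt_of_le hst with rfl | hlt
  · rw [sub_self, abs_zero]; positivity
  have hls : lev s ≤ lev t := lev_mono hst
  rcases Nat.eq_or_lt_of_le hls with heq | hlt'
  · rw [heq, add_sub_add_left_eq_sub]
    exact same h1 h2 s t hst heq fun a b hab _ => oscU h1 h2 b a hab
  · rcases Nat.eq_or_lt_of_le (Nat.succ_le_of_lt hlt') with heq | hlt''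
    · obtain ⟨h3, h4⟩ := adj h1 h2 s t hlt heq
      have h11 : (lev t : ℤ) = lev s + 1 := by exact_mod_cast heq.symm
      have h12 : (0 : ℤ) ≤ lev (t - s) := Int.natCast_nonneg _
      have h13 : (0 : ℤ) ≤ UU (rr t) := Int.natCast_nonneg _
      have h14 : (0 : ℤ) ≤ UU (rr s) := Int.natCast_nonneg _
      have h17 : ((lev (t - s) : ℤ) + 2) ^ 2 =
        lev (t - s) * (lev (t - s) + 1) + 3 * lev (t - s) + 4 := by ring
      rw [abs_le, h17]
      constructor <;> linarith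
    · obtain ⟨g1, g2, g3, g4, g5, g6, g7⟩ := far h1 h2 s t hlt''
      have h17 : ((lev (t - s) : ℤ) + 2) ^ 2 = (lev (t - s) + 1) ^ 2 + 2 * lev (t - s) + 3 := by
        ring
      rw [abs_le, h17]
      constructor <;> linarith

end

theorem t_OSC (h1 : S_LEV) (h2 : S_UREC) : S_OSC := by
  intro s t
  have key : ∀ s t : ℤ, s.natAbs ≤ t.natAbs →
      |ww s - ww t| ≤ (((lev (s - t).natAbs + 2) ^ 2 : ℕ) : ℤ) := by
    intro s t h
    rw [abs_sub_comm]
    have h3 := oscW h1 h2 s.natAbs t.natAbs h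
    refine h3.trans ?_
    push_cast
    have h4 : lev (t.natAbs - s.natAbs) ≤ lev (s - t).natAbs := lev_mono (by omega)
    have h5 : (lev (t.natAbs - s.natAbs) : ℤ) ≤ lev (s - t).natAbs := by exact_mod_cast h4
    exact pow_le_pow_left₀ (by positivity) (by linarith) 2
  rcases Nat.le_total s.natAbs t.natAbs with h | h
  · exact key s t h
  · have := key t s h
    rw [abs_sub_comm, show (t - s).natAbs = (s - t).natAbs by omega] at this
    exact this

theorem t_SUBL (_h1 : S_LEV) : S_SUBL := by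
  refine ⟨fun a b h => Nat.pow_le_pow_left (Nat.add_le_add_right (lev_mono h) 2) 2, ?_⟩
  intro ε hε
  have h1 := tendsto_pow_const_div_const_pow_of_one_lt 2 (r := (3 : ℝ)) (by norm_num)
  have h2 := h1.eventually (gt_mem_nhds (show (0 : ℝ) < ε / 18 by positivity))
  obtain ⟨N, hN⟩ := eventually_atTop.1 h2
  refine ⟨ε / 2 + ((N : ℝ) + 2) ^ 2, fun n => ?_⟩
  push_cast
  rcases Nat.lt_or_ge (lev n + 2) N with h | h
  · have h3 : ((lev n : ℝ) + 2) ≤ N + 2 := by
      have : ((lev n + 2 : ℕ) : ℝ) ≤ N := by exact_mod_cast h.le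
      push_cast at this
      linarith
    have h4 : ((lev n : ℝ) + 2) ^ 2 ≤ ((N : ℝ) + 2) ^ 2 := pow_le_pow_left₀ (by positivity) h3 2
    have h5 : 0 ≤ ε * n := by positivity
    linarith
  · have h3 := hN (lev n + 2) h
    rw [div_lt_iff₀ (by positivity)] at h3
    push_cast at h3
    have h4 : (3 : ℝ) ^ lev n ≤ 2 * n + 1 := by
      have := Nat.pow_log_le_self 3 (show 2 * n + 1 ≠ 0 by omega)
      have h5 : (3 : ℕ) ^ lev n ≤ 2 * n + 1 := this
      exact_mod_cast h5
    have h5 : (3 : ℝ) ^ (lev n + 2) = 9 * 3 ^ lev n := by rw [pow_add]; ring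
    rw [h5] at h3
    have h6 : 0 ≤ ((N : ℝ) + 2) ^ 2 := by positivity
    nlinarith

end Pool.Agent.W800.BW
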