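import Pool.Agent.W827.BW.Stm

set_option autoImplicit false

namespace Pool.Agent.W800.BW

open Pool.Agent.W827.BW Set

theorem fin_rel (α : ℤ → ℤ → ℤ) (hα : Good α) (K : Set ℂ) (hK : IsCompact K) :
    {p : (ℤ × ℤ) × (ℤ × ℤ) | RowRel α p.1 p.2 ∧
      (segment ℝ (place p.1) (place p.2) ∩ K).Nonempty}.Finite := by
  obtain ⟨R, hR⟩ := hK.isBounded.exists_norm_le
  obtain ⟨M, hM⟩ : ∃ M : ℤ, ∀ z ∈ K, |z.re| ≤ M ∧ |z.im| ≤ M := by
    refine ⟨⌈R⌉, fun z hz => ⟨?_, ?_⟩⟩
    · exact (Complex.abs_re_le_norm z).trans ((hR z hz).trans (Int.le_ceil R))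
    · exact (Complex.abs_im_le_norm z).trans ((hR z hz).trans (Int.le_ceil R))
  choose i0 hi0 using fun t => hα.above t (M + 1)
  choose i1 hi1 using fun t => hα.below t (-M - 1)
  have hfin : (⋃ t ∈ Icc (-M - 1) M, ⋃ i ∈ Icc (min (-M - 1) (i1 t)) (max M (i0 t)),
      ({(((t, i) : ℤ × ℤ), ((t, i + 1) : ℤ × ℤ))} ∪
        (fun j : ℤ => (((t, i) : ℤ × ℤ), ((t + 1, j) : ℤ × ℤ))) '' Icc (α t i) (α t (i + 1)))).Finite := by
    refine (finite_Icc _ _).biUnion fun t _ => (finite_Icc _ _).biUnion fun i _ => ?_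
    exact (finite_singleton _).union ((finite_Icc _ _).image _)
  refine hfin.subset ?_
  rintro ⟨⟨t, i⟩, ⟨t', j⟩⟩ ⟨hrel, z, ⟨s, r, hs, hr, hsr, rfl⟩, hz⟩
  obtain ⟨h1, h2⟩ := hM _ hz
  have hs1 : s = 1 - r := by linarith
  have hre : (s • place (t, i) + r • place (t', j)).re = (1 - r) * i + r * j := by
    rw [hs1]; simp [place]
  have him : (s • place (t, i) + r • place (t', j)).im = (1 - r) * t + r * t' := by
    rw [hs1]; simp [place]
  rw [hre, abs_le] at h1
  rw [him, abs_le] at h2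
  have hr1 : r ≤ 1 := by linarith
  simp only [mem_iUnion, mem_union, mem_singleton_iff, mem_image, Prod.mk.injEq, exists_prop]
  rcases hrel with ⟨h3, h4⟩ | ⟨h3, h4, h5⟩
  · simp only at h3 h4
    subst h3 h4
    refine ⟨t', ?_, i, ?_, Or.inl ⟨⟨rfl, rfl⟩, rfl, rfl⟩⟩
    · have h5 : (-(M : ℝ)) ≤ t' := by linarith [h2.1]
      have h6 : (t' : ℝ) ≤ M := by linarith [h2.2]
      have h5' : -M ≤ t' := by exact_mod_cast h5
      have h6' : t' ≤ M := by exact_mod_cast h6
      exact ⟨by linarith, h6'⟩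
    · push_cast at h1
      have h5 : (-(M : ℝ)) ≤ i + 1 := by linarith [h1.1]
      have h6 : (i : ℝ) ≤ M := by linarith [h1.2]
      have h5' : -M ≤ i + 1 := by exact_mod_cast h5
      have h6' : i ≤ M := by exact_mod_cast h6
      exact ⟨(min_le_left _ _).trans (by linarith), h6'.trans (le_max_left _ _)⟩
  · simp only at h3 h4 h5
    subst h3
    refine ⟨t, ?_, i, ?_, Or.inr ⟨j, ⟨h4, h5⟩, ⟨rfl, rfl⟩, rfl, rfl⟩⟩
    · push_cast at h2
      have h6 : (-(M : ℝ)) ≤ t + 1 := by linarith [h2.1]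
      have h7 : (t : ℝ) ≤ M := by linarith [h2.2]
      have h6' : -M ≤ t + 1 := by exact_mod_cast h6
      have h7' : t ≤ M := by exact_mod_cast h7
      exact ⟨by linarith, h7'⟩
    · constructor
      · by_contra hlt
        rw [not_le, lt_min_iff] at hlt
        have h6 : j < -M := by
          have h7 : j < α t (i + 1) + 1 := by linarith
          have h8 : α t (i + 1) ≤ α t (i1 t) := hα.mono t (by linarith [hlt.2])
          have h9 := hi1 t
          linarith
        have h7 : (j : ℝ) ≤ -M - 1 := by exact_mod_cast (by omega : j ≤ -M - 1)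
        have h8 : (i : ℝ) ≤ -M - 1 := by exact_mod_cast hlt.1.le
        have h9 := mul_nonneg (by linarith : (0 : ℝ) ≤ 1 - r) (by linarith : (0 : ℝ) ≤ -M - 1 - i)
        have h10 := mul_nonneg hr (by linarith : (0 : ℝ) ≤ -M - 1 - j)
        linarith [h1.1, h1.2]
      · by_contra hlt
        rw [not_le, max_lt_iff] at hlt
        have h6 : M < j := by
          have h8 : α t (i0 t) ≤ α t i := hα.mono t hlt.2.le
          have h9 := hi0 t
          linarith
        have h7 : (M : ℝ) + 1 ≤ j := by exact_mod_cast h6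
        have h8 : (M : ℝ) + 1 ≤ i := by exact_mod_cast hlt.1
        have h9 := mul_nonneg (by linarith : (0 : ℝ) ≤ 1 - r) (by linarith : (0 : ℝ) ≤ (i : ℝ) - M - 1)
        have h10 := mul_nonneg hr (by linarith : (0 : ℝ) ≤ (j : ℝ) - M - 1)
        linarith [h1.1, h1.2]

theorem t_TOP4 : S_TOP4 := by
  intro α hα K hK
  have h := fin_rel α hα K hK
  refine (h.union (h.image Prod.swap)).subset ?_
  rintro ⟨a, b⟩ ⟨hadj, hne⟩
  obtain ⟨-, h1 | h1⟩ := (SimpleGraph.fromRel_adj _ _ _).1 hadj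
  · exact Or.inl ⟨h1, hne⟩
  · refine Or.inr ⟨(b, a), ⟨h1, ?_⟩, rfl⟩
    show (segment ℝ (place b) (place a) ∩ K).Nonempty
    rw [segment_symm]
    exact hne

end Pool.Agent.W800.BW
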